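import Mathlib
import Pool.Agent.Lib.MP_e74e95_nt.Defs
import Pool.Agent.Lib.MP_e74e95_nt.Main

/-!
# Sign patterns of weighted partition sums with parts `1!, 2!, ..., m!`

For every `m ≥ 3` and every `k`, the sign of `S_{U_m,k}(n)` is eventually `+,-,-,+` according to
`n mod 4`.  So part (i) of the conjecture holds for all `m`, and part (ii) fails for all `m ≥ 3`.
-/

set_option autoImplicit false

namespace Pool.Agent.Results.MP_e74e95_nt.FactorialSigns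

open Pool.Agent.Lib.MP_e74e95_nt

theorem part_one {m : ℕ} (hm : 2 ≤ m) (k : ℕ) (hk : k + 2 ≤ m) :
    ∃ N : ℕ, ∀ n ≥ N, 0 ≤ (-1 : ℤ) ^ ((n + 1) / 2) * S (U m) k n := by
  rcases Nat.lt_or_ge m 3 with h | h
  · have h1 : m = 2 := by omega
    have h2 : k = 0 := by omega
    subst h1 h2
    exact ⟨0, fun n _ => two_zero n⟩
  · obtain ⟨N, hN⟩ := main h k
    exact ⟨N, fun n hn => (hN n hn).le⟩

theorem part_two {m : ℕ} (hm : 3 ≤ m) (k : ℕ) :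
    {n : ℕ | (-1 : ℤ) ^ n * S (U m) k n < 0}.Infinite := by
  obtain ⟨N, hN⟩ := main hm k
  apply Set.infinite_of_forall_exists_gt
  intro a
  refine ⟨4 * (a + N) + 2, ?_, by omega⟩
  have h1 := hN (4 * (a + N) + 2) (by omega)
  have h2 : (4 * (a + N) + 2 + 1) / 2 = 2 * (a + N) + 1 := by omega
  rw [h2, pow_succ, pow_mul] at h1
  rw [Set.mem_setOf_eq]
  have h3 : (-1 : ℤ) ^ (4 * (a + N) + 2) = 1 := Even.neg_one_pow ⟨2 * (a + N) + 1, by ring⟩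
  rw [h3]
  norm_num at h1 ⊢
  exact h1

/-- For all `m ≥ 3` and all `k` the pattern `+,-,-,+` holds eventually, strictly; hence part (i) of
the conjecture holds for every `m ≥ 2`, part (ii) fails for every `m ≥ 3` and every `k`, and the
conjecture (parts (i) and (ii) for all `m ≥ 2`) is false. -/
theorem result :
    (∀ m : ℕ, 3 ≤ m → ∀ k : ℕ, ∃ N : ℕ, ∀ n ≥ N,
      0 < (-1 : ℤ) ^ ((n + 1) / 2) * S (U m) k n) ∧
    (∀ m : ℕ, 2 ≤ m → ∀ k : ℕ, k + 2 ≤ m → ∃ N : ℕ, ∀ n ≥ N,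
      0 ≤ (-1 : ℤ) ^ ((n + 1) / 2) * S (U m) k n) ∧
    (∀ m : ℕ, 3 ≤ m → ∀ k : ℕ, {n : ℕ | (-1 : ℤ) ^ n * S (U m) k n < 0}.Infinite) ∧
    ¬ (∀ m : ℕ, 2 ≤ m →
      (∀ k : ℕ, k + 2 ≤ m → ∃ N : ℕ, ∀ n ≥ N, 0 ≤ (-1 : ℤ) ^ ((n + 1) / 2) * S (U m) k n) ∧
      (∀ k : ℕ, m ≤ k + 1 → ∃ N : ℕ, ∀ n ≥ N, 0 ≤ (-1 : ℤ) ^ n * S (U m) k n)) := by
  refine ⟨fun m hm k => main hm k, fun m hm k hk => part_one hm k hk,
    fun m hm k => part_two hm k, ?_⟩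
  intro h
  obtain ⟨N, hN⟩ := (h 3 (by norm_num)).2 2 (by norm_num)
  obtain ⟨n, hn, hlt⟩ := (part_two (le_refl 3) 2).exists_gt N
  exact absurd (hN n hlt.le) (not_le.mpr hn)

end Pool.Agent.Results.MP_e74e95_nt.FactorialSigns
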